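import Mathlib

/-!
# One-troughed travelling waves of the piecewise linear beam equation are even

We prove the Champneys-McKenna conjecture (in the form of Q1) for all `c² ∈ (0,2)` and
`ξ ∈ [0, c⁴/4)`: a solution `z` of
`z'''' + c² z'' + (z+1)⁺ - ξ (z+1)⁻ - 1 = 0`, `z, z' → 0` at `±∞`, that lies below `-1` exactly on
one interval is even about the midpoint of this interval.
-/

namespace Pool.Agent.Results.MP_55ecfc_an.OneTroughedEven

open Set Filter Topology

/-- Travelling wave profiles: `C⁴` solutions of the profile equation which tend to `0` together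
with their derivative at both infinities. -/
def IsWave (c ξ : ℝ) (z : ℝ → ℝ) : Prop :=
  ContDiff ℝ 4 z ∧
  (∀ t, iteratedDeriv 4 z t + c ^ 2 * iteratedDeriv 2 z t + max (z t + 1) 0
      - ξ * max (-(z t + 1)) 0 - 1 = 0) ∧
  Tendsto z atTop (𝓝 0) ∧ Tendsto z atBot (𝓝 0) ∧
  Tendsto (deriv z) atTop (𝓝 0) ∧ Tendsto (deriv z) atBot (𝓝 0)

/-- `z` drops below `-1` on exactly one interval. -/
def OneTroughed (z : ℝ → ℝ) : Prop :=
  ∃ t₀ t₁ : ℝ, t₀ < t₁ ∧ ∀ t, z t < -1 ↔ t₀ < t ∧ t < t₁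

/-! ### Constancy and growth -/

lemma const_of_deriv {f : ℝ → ℝ} {a b : ℝ} (hab : a ≤ b)
    (h : ∀ t ∈ Icc a b, HasDerivAt f 0 t) : f b = f a := by
  have hc : ContinuousOn f (Icc a b) := fun t ht => (h t ht).continuousAt.continuousWithinAt
  have := constant_of_has_deriv_right_zero hc
    (fun x hx => (h x ⟨hx.1, hx.2.le⟩).hasDerivWithinAt)
  exact this b ⟨hab, le_rfl⟩

lemma growth {f f' : ℝ → ℝ} {a b C : ℝ} (hab : a ≤ b)
    (h : ∀ t ∈ Icc a b, HasDerivAt f (f' t) t) (hC : ∀ t ∈ Icc a b, |f' t| ≤ C) :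
    |f b - f a| ≤ C * (b - a) := by
  have := norm_image_sub_le_of_norm_deriv_le_segment' (f := f) (f' := f') (C := C) (a := a)
    (b := b) (fun x hx => (h x hx).hasDerivWithinAt)
    (fun x hx => by simpa using hC x ⟨hx.1, hx.2.le⟩) b ⟨hab, le_rfl⟩
  simpa using this

lemma subexp {A C a : ℝ} (ha : 0 < a) (h : ∀ s : ℝ, 1 ≤ s → A * Real.exp (a * s) ≤ C * s ^ 4) :
    A ≤ 0 := by
  have h1 : Tendsto (fun s : ℝ => a * s) atTop atTop := tendsto_id.const_mul_atTop ha
  have h2 := (Real.tendsto_pow_mul_exp_neg_atTop_nhds_zero 4).comp h1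
  have h3 : Tendsto (fun s : ℝ => C / a ^ 4 * ((a * s) ^ 4 * Real.exp (-(a * s)))) atTop
      (𝓝 (C / a ^ 4 * 0)) := h2.const_mul _
  rw [mul_zero] at h3
  refine ge_of_tendsto h3 ?_
  filter_upwards [eventually_ge_atTop (1 : ℝ)] with s hs
  have h4 := h s hs
  have h5 : C / a ^ 4 * ((a * s) ^ 4 * Real.exp (-(a * s))) = C * s ^ 4 * Real.exp (-(a * s)) := by
    field_simp
  rw [h5]
  have h6 : A = A * Real.exp (a * s) * Real.exp (-(a * s)) := by
    rw [mul_assoc, ← Real.exp_add]; simp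
  rw [h6]
  exact mul_le_mul_of_nonneg_right h4 (Real.exp_pos _).le

/-- Decaying solutions lie in the stable subspace. -/
lemma decay {c α T M : ℝ} (hα : 0 < α) (hα1 : α < 1) (hαc : 4 * α ^ 2 = 2 - c ^ 2)
    {z0 z1 z2 z3 : ℝ → ℝ} (h0 : ∀ t, T ≤ t → HasDerivAt z0 (z1 t) t)
    (h1 : ∀ t, T ≤ t → HasDerivAt z1 (z2 t) t) (h2 : ∀ t, T ≤ t → HasDerivAt z2 (z3 t) t)
    (h3 : ∀ t, T ≤ t → HasDerivAt z3 (-c ^ 2 * z2 t - z0 t) t)
    (hM0 : ∀ t, T ≤ t → |z0 t| ≤ M) (hM1 : ∀ t, T ≤ t → |z1 t| ≤ M) :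
    ∀ t, T ≤ t → z2 t = -z0 t - 2 * α * z1 t ∧ z3 t = (1 - c ^ 2) * z1 t + 2 * α * z0 t := by
  have hαsq : α ^ 2 < 1 := by
    have : α ^ 2 < 1 ^ 2 := pow_lt_pow_left₀ hα1 hα.le two_ne_zero
    simpa using this
  set Z1 : ℝ → ℝ := fun t => -(z3 t + c ^ 2 * z1 t) with hZ1
  set Z2 : ℝ → ℝ := fun t => -(z2 t + c ^ 2 * z0 t) with hZ2
  have dZ1 : ∀ t, T ≤ t → HasDerivAt Z1 (z0 t) t := by
    intro t ht
    exact (((h3 t ht).add ((h1 t ht).const_mul (c ^ 2))).neg).congr_deriv (by ring)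
  have dZ2 : ∀ t, T ≤ t → HasDerivAt Z2 (Z1 t) t := by
    intro t ht
    exact ((h2 t ht).add ((h0 t ht).const_mul (c ^ 2))).neg
  set V : ℝ → ℝ := fun t => z0 t + 2 * α * Z1 t + Z2 t with hV
  set v : ℝ → ℝ := fun t => z1 t + 2 * α * z0 t + Z1 t with hv
  have dV : ∀ t, T ≤ t → HasDerivAt V (v t) t := fun t ht =>
    ((h0 t ht).add ((dZ1 t ht).const_mul (2 * α))).add (dZ2 t ht)
  have dv : ∀ t, T ≤ t → HasDerivAt v (2 * α * v t - V t) t := by
    intro t ht
    refine (((h1 t ht).add ((h0 t ht).const_mul (2 * α))).add (dZ1 t ht)).congr_deriv ?_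
    simp only [hv, hV, hZ1, hZ2]
    linear_combination (-z0 t) * hαc
  set E : ℝ → ℝ := fun t => (v t - α * V t) ^ 2 + (1 - α ^ 2) * V t ^ 2 with hE
  have dE : ∀ t, T ≤ t → HasDerivAt E (2 * α * E t) t := by
    intro t ht
    have a1 := (((dv t ht).sub ((dV t ht).const_mul α)).pow 2).add
      (((dV t ht).pow 2).const_mul (1 - α ^ 2))
    refine a1.congr_deriv ?_
    simp only [hE, Pi.sub_apply]
    push_cast
    ring
  have hEexp : ∀ t, T ≤ t → E t = E T * Real.exp (2 * α * (t - T)) := by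
    intro t ht
    have hd : ∀ s ∈ Icc T t, HasDerivAt (fun s => E s * Real.exp (-(2 * α * (s - T)))) 0 s := by
      intro s hs
      have e1 : HasDerivAt (fun s : ℝ => -(2 * α * (s - T))) (-(2 * α * 1)) s :=
        (((hasDerivAt_id s).sub_const T).const_mul (2 * α)).neg
      exact ((dE s hs.1).mul e1.exp).congr_deriv (by ring)
    have := const_of_deriv ht hd
    simp only [sub_self, mul_zero, neg_zero, Real.exp_zero, mul_one] at this
    rw [← this, mul_assoc, ← Real.exp_add]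
    simp
  -- growth bounds
  have hM : 0 ≤ M := (abs_nonneg _).trans (hM0 T le_rfl)
  set N := |Z1 T| with hN
  set N2 := |Z2 T| with hN2
  have bZ1 : ∀ t, T ≤ t → |Z1 t| ≤ N + M * (t - T) := by
    intro t ht
    have := growth ht (fun s hs => dZ1 s hs.1) (fun s hs => hM0 s hs.1)
    have h5 : |Z1 t| ≤ |Z1 t - Z1 T| + |Z1 T| := by
      have := abs_add_le (Z1 t - Z1 T) (Z1 T)
      simpa using this
    linarith
  have bZ2 : ∀ t, T ≤ t → |Z2 t| ≤ N2 + (N + M * (t - T)) * (t - T) := by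
    intro t ht
    have := growth ht (fun s hs => dZ2 s hs.1) (C := N + M * (t - T))
      (fun s hs => (bZ1 s hs.1).trans (by
        have : M * (s - T) ≤ M * (t - T) := mul_le_mul_of_nonneg_left (by linarith [hs.2]) hM
        linarith))
    have h5 : |Z2 t| ≤ |Z2 t - Z2 T| + |Z2 T| := by
      have := abs_add_le (Z2 t - Z2 T) (Z2 T)
      simpa using this
    linarith
  have hN0 : 0 ≤ N := abs_nonneg _
  have hN20 : 0 ≤ N2 := abs_nonneg _
  set K := 10 * (M + N + N2) with hK
  have hKnn : 0 ≤ K := by positivity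
  have bv : ∀ s : ℝ, 1 ≤ s → |v (T + s)| ≤ K * s ^ 2 := by
    intro s hs
    have ht : T ≤ T + s := by linarith
    have b0 := hM0 _ ht
    have b1 := hM1 _ ht
    have b2 := bZ1 _ ht
    have e1 : |v (T + s)| ≤ |z1 (T + s)| + 2 * α * |z0 (T + s)| + |Z1 (T + s)| := by
      have := abs_add_three (z1 (T + s)) (2 * α * z0 (T + s)) (Z1 (T + s))
      rw [abs_mul, abs_of_pos (by linarith : (0 : ℝ) < 2 * α)] at this
      exact this
    have e2 : 2 * α * |z0 (T + s)| ≤ 2 * M := by
      nlinarith [abs_nonneg (z0 (T + s))]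
    have e3 : T + s - T = s := by ring
    rw [e3] at b2
    have e4 : s ≤ s ^ 2 := by nlinarith
    have e5 : 1 ≤ s ^ 2 := by nlinarith
    have e6 : M * s ≤ M * s ^ 2 := mul_le_mul_of_nonneg_left e4 hM
    have e7 : M ≤ M * s ^ 2 := by nlinarith
    have e8 : N ≤ N * s ^ 2 := by nlinarith
    have e9 : 0 ≤ N2 * s ^ 2 := by positivity
    have e10 : 0 ≤ M * s ^ 2 := by positivity
    have e11 : 0 ≤ N * s ^ 2 := by positivity
    have e13 : K * s ^ 2 = 10 * (M * s ^ 2) + 10 * (N * s ^ 2) + 10 * (N2 * s ^ 2) := by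
      rw [hK]; ring
    rw [e13]
    linarith
  have bV : ∀ s : ℝ, 1 ≤ s → |V (T + s)| ≤ K * s ^ 2 := by
    intro s hs
    have ht : T ≤ T + s := by linarith
    have b0 := hM0 _ ht
    have b2 := bZ1 _ ht
    have b3 := bZ2 _ ht
    have e1 : |V (T + s)| ≤ |z0 (T + s)| + 2 * α * |Z1 (T + s)| + |Z2 (T + s)| := by
      have := abs_add_three (z0 (T + s)) (2 * α * Z1 (T + s)) (Z2 (T + s))
      rw [abs_mul, abs_of_pos (by linarith : (0 : ℝ) < 2 * α)] at this
      exact this
    have e3 : T + s - T = s := by ring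
    rw [e3] at b2 b3
    have e2 : 2 * α * |Z1 (T + s)| ≤ 2 * (N + M * s) := by
      nlinarith [abs_nonneg (Z1 (T + s))]
    have e4 : s ≤ s ^ 2 := by nlinarith
    have e5 : 1 ≤ s ^ 2 := by nlinarith
    have e6 : M * s ≤ M * s ^ 2 := mul_le_mul_of_nonneg_left e4 hM
    have e7 : M ≤ M * s ^ 2 := by nlinarith
    have e8 : N ≤ N * s ^ 2 := by nlinarith
    have e9 : N2 ≤ N2 * s ^ 2 := by nlinarith
    have e12 : N * s ≤ N * s ^ 2 := mul_le_mul_of_nonneg_left e4 hN0
    have e10 : 0 ≤ M * s ^ 2 := by positivity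
    have e11 : 0 ≤ N * s ^ 2 := by positivity
    have e13 : K * s ^ 2 = 10 * (M * s ^ 2) + 10 * (N * s ^ 2) + 10 * (N2 * s ^ 2) := by
      rw [hK]; ring
    have e14 : (N + M * s) * s = N * s + M * s ^ 2 := by ring
    rw [e14] at b3
    rw [e13]
    linarith
  have hET : E T ≤ 0 := by
    refine subexp (a := 2 * α) (C := 5 * K ^ 2) (by linarith) ?_
    intro s hs
    have ht : T ≤ T + s := by linarith
    have e0 := hEexp _ ht
    rw [show T + s - T = s by ring] at e0
    rw [← e0]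
    have b1 := bv s hs
    have b2 := bV s hs
    have q1 : v (T + s) ^ 2 ≤ (K * s ^ 2) ^ 2 := by
      rw [← sq_abs]; exact pow_le_pow_left₀ (abs_nonneg _) b1 2
    have q2 : V (T + s) ^ 2 ≤ (K * s ^ 2) ^ 2 := by
      rw [← sq_abs]; exact pow_le_pow_left₀ (abs_nonneg _) b2 2
    have q3 : E (T + s) ≤ 2 * v (T + s) ^ 2 + 3 * V (T + s) ^ 2 := by
      simp only [hE]
      have w1 : α ^ 2 * V (T + s) ^ 2 ≤ 1 * V (T + s) ^ 2 :=
        mul_le_mul_of_nonneg_right hαsq.le (sq_nonneg _)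
      have w2 := sq_nonneg (v (T + s) + α * V (T + s))
      have w3 : 0 ≤ α ^ 2 * V (T + s) ^ 2 := by positivity
      have w4 : (v (T + s) - α * V (T + s)) ^ 2 + (1 - α ^ 2) * V (T + s) ^ 2 =
        2 * v (T + s) ^ 2 + 2 * (α ^ 2 * V (T + s) ^ 2) - (v (T + s) + α * V (T + s)) ^ 2
          + V (T + s) ^ 2 - α ^ 2 * V (T + s) ^ 2 := by ring
      rw [w4]
      linarith
    have q4 : (K * s ^ 2) ^ 2 = K ^ 2 * s ^ 4 := by ring
    rw [q4] at q1 q2
    linarith
  have hα2 : 0 < 1 - α ^ 2 := by linarith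
  intro t ht
  have hEt : E t ≤ 0 := by
    rw [hEexp t ht]
    exact mul_nonpos_of_nonpos_of_nonneg hET (Real.exp_pos _).le
  have hVt : V t = 0 := by
    have h5 : (1 - α ^ 2) * V t ^ 2 ≤ 0 := by
      have : 0 ≤ (v t - α * V t) ^ 2 := sq_nonneg _
      simp only [hE] at hEt
      linarith
    have h6 : V t ^ 2 ≤ 0 := by
      by_contra hcon
      push Not at hcon
      linarith [mul_pos hα2 hcon]
    exact pow_eq_zero_iff (two_ne_zero) |>.1 (le_antisymm h6 (sq_nonneg _))
  have hvt : v t = 0 := by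
    have h5 : (v t - α * V t) ^ 2 ≤ 0 := by
      have : 0 ≤ (1 - α ^ 2) * V t ^ 2 := by positivity
      simp only [hE] at hEt
      linarith
    rw [hVt, mul_zero, sub_zero] at h5
    exact pow_eq_zero_iff (two_ne_zero) |>.1 (le_antisymm h5 (sq_nonneg _))
  simp only [hV, hv, hZ1, hZ2] at hVt hvt
  constructor
  · linear_combination -hVt + 2 * α * hvt - z0 t * hαc
  · linear_combination -hvt

/-- The harmonic oscillator. -/
lemma harmonic {f g : ℝ → ℝ} {ω T : ℝ} (hω : ω ≠ 0)
    (hf : ∀ t ∈ Icc 0 T, HasDerivAt f (g t) t)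
    (hg : ∀ t ∈ Icc 0 T, HasDerivAt g (-(ω ^ 2) * f t) t) :
    ∀ t ∈ Icc 0 T, f t = f 0 * Real.cos (ω * t) + g 0 / ω * Real.sin (ω * t) ∧
      g t = -f 0 * ω * Real.sin (ω * t) + g 0 * Real.cos (ω * t) := by
  intro t ht
  have hsub : ∀ s ∈ Icc 0 t, s ∈ Icc 0 T := fun s hs => ⟨hs.1, hs.2.trans ht.2⟩
  have d1 : ∀ s : ℝ, HasDerivAt (fun s => Real.cos (ω * s)) (-Real.sin (ω * s) * (ω * 1)) s :=
    fun s => ((hasDerivAt_id s).const_mul ω).cos
  have d2 : ∀ s : ℝ, HasDerivAt (fun s => Real.sin (ω * s)) (Real.cos (ω * s) * (ω * 1)) s :=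
    fun s => ((hasDerivAt_id s).const_mul ω).sin
  have k1 := const_of_deriv (f := fun s => ω * (f s * Real.cos (ω * s)) - g s * Real.sin (ω * s))
    ht.1 (fun s hs => by
      exact ((((hf s (hsub s hs)).mul (d1 s)).const_mul ω).sub
        ((hg s (hsub s hs)).mul (d2 s))).congr_deriv (by ring))
  have k2 := const_of_deriv (f := fun s => ω * (f s * Real.sin (ω * s)) + g s * Real.cos (ω * s))
    ht.1 (fun s hs => by
      exact ((((hf s (hsub s hs)).mul (d2 s)).const_mul ω).add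
        ((hg s (hsub s hs)).mul (d1 s))).congr_deriv (by ring))
  simp only [mul_zero, Real.cos_zero, Real.sin_zero, mul_one, sub_zero, zero_add] at k1 k2
  have k3 := Real.sin_sq_add_cos_sq (ω * t)
  constructor
  · field_simp
    linear_combination Real.cos (ω * t) * k1 + Real.sin (ω * t) * k2 - ω * f t * k3
  · linear_combination -Real.sin (ω * t) * k1 + Real.cos (ω * t) * k2 - g t * k3

/-- Zero data at the right end. -/
lemma zero_data {f g : ℝ → ℝ} {κ T : ℝ} (hκ : 0 ≤ κ)
    (hf : ∀ t ∈ Icc 0 T, HasDerivAt f (g t) t)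
    (hg : ∀ t ∈ Icc 0 T, HasDerivAt g (-κ * f t) t) (hfT : f T = 0) (hgT : g T = 0) :
    ∀ t ∈ Icc 0 T, f t = 0 := by
  have hgz : ∀ t ∈ Icc 0 T, g t = 0 := by
    intro t ht
    have hsub : ∀ s ∈ Icc t T, s ∈ Icc 0 T := fun s hs => ⟨ht.1.trans hs.1, hs.2⟩
    have k := const_of_deriv (f := fun s => κ * (f s * f s) + g s * g s) ht.2 (fun s hs => by
      exact ((((hf s (hsub s hs)).mul (hf s (hsub s hs))).const_mul κ).add
        ((hg s (hsub s hs)).mul (hg s (hsub s hs)))).congr_deriv (by ring))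
    simp only [hfT, hgT, mul_zero, add_zero] at k
    have h1 : 0 ≤ κ * (f t * f t) := mul_nonneg hκ (mul_self_nonneg _)
    have h2 : g t * g t ≤ 0 := by linarith
    exact mul_self_eq_zero.1 (le_antisymm h2 (mul_self_nonneg _))
  intro t ht
  have k := const_of_deriv (f := f) ht.2 (fun s hs => by
    have h1 : s ∈ Icc 0 T := ⟨ht.1.trans hs.1, hs.2⟩
    have := hf s h1
    rwa [hgz s h1] at this)
  rw [← k, hfT]

lemma bounded_right {f : ℝ → ℝ} (hf : Continuous f) (h : Tendsto f atTop (𝓝 0)) (T : ℝ) :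
    ∃ M, ∀ t, T ≤ t → |f t| ≤ M := by
  have h1 : ∀ᶠ t in atTop, |f t| < 1 := by
    have := h.abs
    rw [abs_zero] at this
    exact this.eventually (gt_mem_nhds one_pos)
  obtain ⟨R, hR⟩ := eventually_atTop.1 h1
  obtain ⟨C, hC⟩ := (isCompact_Icc (a := T) (b := R)).exists_bound_of_continuousOn hf.continuousOn
  refine ⟨max C 1, fun t ht => ?_⟩
  rcases le_total t R with h2 | h2
  · exact (by simpa using hC t ⟨ht, h2⟩ : |f t| ≤ C).trans (le_max_left _ _)
  · exact (hR t h2).le.trans (le_max_right _ _)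

/-- The main computation. The trough is `(-T, T)`. -/
theorem core {c ξ T : ℝ} (hc : 0 < c) (hc2 : c ^ 2 < 2) (hξ0 : 0 ≤ ξ) (hξ : ξ < c ^ 4 / 4)
    (hT : 0 < T) {z0 z1 z2 z3 : ℝ → ℝ} (h0 : ∀ t, HasDerivAt z0 (z1 t) t)
    (h1 : ∀ t, HasDerivAt z1 (z2 t) t) (h2 : ∀ t, HasDerivAt z2 (z3 t) t)
    (h3 : ∀ t, HasDerivAt z3
      (1 - c ^ 2 * z2 t - max (z0 t + 1) 0 + ξ * max (-(z0 t + 1)) 0) t)
    (a0 : Tendsto z0 atTop (𝓝 0)) (a1 : Tendsto z1 atTop (𝓝 0))
    (b0 : Tendsto z0 atBot (𝓝 0)) (b1 : Tendsto z1 atBot (𝓝 0))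
    (hneg : ∀ t, z0 t < -1 ↔ -T < t ∧ t < T) : ∀ t, z0 t = z0 (-t) := by
  -- the decay rate
  obtain ⟨α, hα, hα1, hαc⟩ : ∃ α : ℝ, 0 < α ∧ α < 1 ∧ 4 * α ^ 2 = 2 - c ^ 2 := by
    refine ⟨Real.sqrt (2 - c ^ 2) / 2, by
      have := Real.sqrt_pos.2 (by linarith : 0 < 2 - c ^ 2); positivity, ?_, ?_⟩
    · have h5 : Real.sqrt (2 - c ^ 2) < 2 := by
        rw [Real.sqrt_lt' (by norm_num)]
        nlinarith
      linarith
    · rw [div_pow, Real.sq_sqrt (by linarith)]; ring
  -- the frequencies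
  obtain ⟨X, Y, hXY, hprod, hY0, hX0, hlt⟩ :
      ∃ X Y : ℝ, X + Y = c ^ 2 ∧ X * Y = ξ ∧ 0 ≤ Y ∧ 0 < X ∧ Y < X := by
    have hD : 0 < c ^ 4 - 4 * ξ := by linarith
    set D := Real.sqrt (c ^ 4 - 4 * ξ) with hDdef
    have hDpos : 0 < D := Real.sqrt_pos.2 hD
    have hDsq : D ^ 2 = c ^ 4 - 4 * ξ := Real.sq_sqrt hD.le
    have hc2pos : 0 < c ^ 2 := by positivity
    have hDle : D ≤ c ^ 2 := by
      refine abs_le_of_sq_le_sq' ?_ hc2pos.le |>.2
      rw [hDsq, show (c ^ 2) ^ 2 = c ^ 4 by ring]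
      linarith
    refine ⟨(c ^ 2 + D) / 2, (c ^ 2 - D) / 2, by ring, ?_, by linarith, by linarith, by linarith⟩
    linear_combination (-1 / 4 : ℝ) * hDsq
  have hξ1 : ξ < 1 := by
    have : (c ^ 2) ^ 2 < 2 ^ 2 := pow_lt_pow_left₀ hc2 (by positivity) two_ne_zero
    rw [show (c ^ 2) ^ 2 = c ^ 4 by ring] at this
    linarith
  have hYlt : Y < 1 := by linarith
  -- values at the ends and inside
  have hcont : Continuous z0 := continuous_iff_continuousAt.2 fun t => (h0 t).continuousAt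
  have hcont1 : Continuous z1 := continuous_iff_continuousAt.2 fun t => (h1 t).continuousAt
  have hin : ∀ t ∈ Icc (-T) T, z0 t ≤ -1 := by
    have hcl : IsClosed {t | z0 t ≤ -1} := isClosed_le hcont continuous_const
    have hsub : Ioo (-T) T ⊆ {t | z0 t ≤ -1} := fun t ht => ((hneg t).2 ht).le
    have := hcl.closure_subset_iff.2 hsub
    rw [closure_Ioo (by linarith)] at this
    exact fun t ht => this ht
  have hout : ∀ t, T ≤ t → -1 ≤ z0 t := fun t ht => by
    by_contra hcon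
    push Not at hcon
    exact absurd ((hneg t).1 hcon).2 (not_lt.2 ht)
  have hout' : ∀ t, T ≤ t → -1 ≤ z0 (-t) := fun t ht => by
    by_contra hcon
    push Not at hcon
    have := ((hneg (-t)).1 hcon).1
    linarith
  have hzT : z0 T = -1 := le_antisymm (hin T ⟨by linarith, le_rfl⟩) (hout T le_rfl)
  have hzT' : z0 (-T) = -1 := le_antisymm (hin (-T) ⟨le_rfl, by linarith⟩) (hout' T le_rfl)
  -- reversed functions
  have r0 : ∀ t, HasDerivAt (fun t => z0 (-t)) (-z1 (-t)) t := fun t =>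
    ((h0 (-t)).comp t (hasDerivAt_neg t)).congr_deriv (by ring)
  have r1 : ∀ t, HasDerivAt (fun t => -z1 (-t)) (z2 (-t)) t := fun t =>
    (((h1 (-t)).comp t (hasDerivAt_neg t)).neg).congr_deriv (by ring)
  have r2 : ∀ t, HasDerivAt (fun t => z2 (-t)) (-z3 (-t)) t := fun t =>
    ((h2 (-t)).comp t (hasDerivAt_neg t)).congr_deriv (by ring)
  have r3 : ∀ t, HasDerivAt (fun t => -z3 (-t))
      (1 - c ^ 2 * z2 (-t) - max (z0 (-t) + 1) 0 + ξ * max (-(z0 (-t) + 1)) 0) t := fun t =>
    (((h3 (-t)).comp t (hasDerivAt_neg t)).neg).congr_deriv (by ring)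
  -- stable subspace on both sides
  have right : ∀ t, T ≤ t →
      z2 t = -z0 t - 2 * α * z1 t ∧ z3 t = (1 - c ^ 2) * z1 t + 2 * α * z0 t := by
    obtain ⟨M, hM⟩ := bounded_right hcont a0 T
    obtain ⟨M', hM'⟩ := bounded_right hcont1 a1 T
    refine decay hα hα1 hαc (M := max M M') (fun t _ => h0 t) (fun t _ => h1 t)
      (fun t _ => h2 t) (fun t ht => (h3 t).congr_deriv ?_)
      (fun t ht => (hM t ht).trans (le_max_left _ _)) (fun t ht => (hM' t ht).trans (le_max_right _ _))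
    have := hout t ht
    rw [max_eq_left (by linarith), max_eq_right (by linarith)]
    ring
  have left : ∀ t, T ≤ t →
      z2 (-t) = -z0 (-t) - 2 * α * (-z1 (-t)) ∧
        -z3 (-t) = (1 - c ^ 2) * (-z1 (-t)) + 2 * α * z0 (-t) := by
    obtain ⟨M, hM⟩ := bounded_right (hcont.comp continuous_neg) (b0.comp tendsto_neg_atTop_atBot) T
    obtain ⟨M', hM'⟩ := bounded_right (hcont1.comp continuous_neg)
      (b1.comp tendsto_neg_atTop_atBot) T
    refine decay (z0 := fun t => z0 (-t)) (z1 := fun t => -z1 (-t)) (z2 := fun t => z2 (-t))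
      (z3 := fun t => -z3 (-t)) hα hα1 hαc (M := max M M') (fun t _ => r0 t) (fun t _ => r1 t)
      (fun t _ => r2 t) (fun t ht => (r3 t).congr_deriv ?_)
      (fun t ht => (hM t ht).trans (le_max_left _ _))
      (fun t ht => by
        rw [abs_neg]; exact (hM' t ht).trans (le_max_right _ _))
    have := hout' t ht
    rw [max_eq_left (by linarith), max_eq_right (by linarith)]
    ring
  -- the equation inside the trough
  have in3 : ∀ t ∈ Icc 0 T, HasDerivAt z3 (1 - ξ - c ^ 2 * z2 t - ξ * z0 t) t := by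
    intro t ht
    refine (h3 t).congr_deriv ?_
    have := hin t ⟨by linarith [ht.1], ht.2⟩
    rw [max_eq_right (by linarith), max_eq_left (by linarith)]
    ring
  have in3' : ∀ t ∈ Icc 0 T,
      HasDerivAt (fun t => -z3 (-t)) (1 - ξ - c ^ 2 * z2 (-t) - ξ * z0 (-t)) t := by
    intro t ht
    refine (r3 t).congr_deriv ?_
    have := hin (-t) ⟨by linarith [ht.2], by linarith [ht.1]⟩
    rw [max_eq_right (by linarith), max_eq_left (by linarith)]
    ring
  obtain ⟨R2, R3⟩ := right T le_rfl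
  obtain ⟨L2, L3⟩ := left T le_rfl
  rw [hzT] at R2 R3
  rw [hzT'] at L2 L3
  -- odd part
  have o0 : ∀ t, HasDerivAt (fun t => z0 t - z0 (-t)) (z1 t - -z1 (-t)) t := fun t =>
    (h0 t).sub (r0 t)
  have o1 : ∀ t, HasDerivAt (fun t => z1 t - -z1 (-t)) (z2 t - z2 (-t)) t := fun t =>
    (h1 t).sub (r1 t)
  have o2 : ∀ t, HasDerivAt (fun t => z2 t - z2 (-t)) (z3 t - -z3 (-t)) t := fun t =>
    (h2 t).sub (r2 t)
  have o3 : ∀ t ∈ Icc 0 T, HasDerivAt (fun t => z3 t - -z3 (-t))
      (-c ^ 2 * (z2 t - z2 (-t)) - ξ * (z0 t - z0 (-t))) t := fun t ht =>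
    ((in3 t ht).sub (in3' t ht)).congr_deriv (by ring)
  have key : ∀ x y : ℝ, x + y = c ^ 2 → x * y = ξ →
      (∀ t ∈ Icc 0 T, HasDerivAt (fun t => (z2 t - z2 (-t)) + y * (z0 t - z0 (-t)))
        ((z3 t - -z3 (-t)) + y * (z1 t - -z1 (-t))) t) ∧
      (∀ t ∈ Icc 0 T, HasDerivAt (fun t => (z3 t - -z3 (-t)) + y * (z1 t - -z1 (-t)))
        (-x * ((z2 t - z2 (-t)) + y * (z0 t - z0 (-t)))) t) := by
    intro x y hxy hp
    refine ⟨fun t ht => (o2 t).add ((o0 t).const_mul y), fun t ht => ?_⟩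
    refine ((o3 t ht).add ((o1 t).const_mul y)).congr_deriv ?_
    linear_combination (z2 t - z2 (-t)) * hxy + (z0 t - z0 (-t)) * hp
  -- the jump of the first derivative
  set s := z1 T - -z1 (-T) with hs
  have oT2 : z2 T - z2 (-T) = -2 * α * s := by rw [R2, L2, hs]; ring
  have oT3 : z3 T - -z3 (-T) = (1 - c ^ 2) * s := by rw [R3, L3, hs]; ring
  have hTmem : T ∈ Icc 0 T := ⟨hT.le, le_rfl⟩
  have hs0 : s = 0 := by
    by_contra hsne
    -- relation for a positive frequency
    have rel : ∀ x y ω : ℝ, x + y = c ^ 2 → x * y = ξ → 0 < ω → ω ^ 2 = x →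
        Real.sin (ω * T) * (1 - x) + 2 * α * ω * Real.cos (ω * T) = 0 := by
      intro x y ω hxy hp hω hωx
      obtain ⟨k1, k2⟩ := key x y hxy hp
      obtain ⟨m1, m2⟩ := harmonic hω.ne' k1 (fun t ht => by rw [hωx]; exact k2 t ht) T hTmem
      simp only [neg_zero, sub_self, mul_zero, add_zero, zero_mul, zero_add] at m1 m2
      rw [oT2, hzT, hzT'] at m1
      rw [oT3] at m2
      set g := z3 0 - -z3 0 + y * (z1 0 - -z1 0) with hg
      have n1 : g * Real.sin (ω * T) = -2 * α * s * ω := by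
        have : g / ω * Real.sin (ω * T) * ω = -2 * α * s * ω := by
          rw [← m1]; ring
        rw [← this]; field_simp
      have n2 : g * Real.cos (ω * T) = (1 - x) * s := by
        linear_combination -m2 + s * hxy
      have hgne : g ≠ 0 := by
        intro hg0
        rw [hg0, zero_mul] at n1
        have : α * s * ω ≠ 0 := mul_ne_zero (mul_ne_zero hα.ne' hsne) hω.ne'
        apply this
        linarith
      have : g * (Real.sin (ω * T) * (1 - x) + 2 * α * ω * Real.cos (ω * T)) = 0 := by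
        linear_combination (1 - x) * n1 + 2 * α * ω * n2
      exact (mul_eq_zero.1 this).resolve_left hgne
    rcases hξ0.eq_or_lt with hz | hpos
    · -- `ξ = 0`
      have hY : Y = 0 := by
        have : X * Y = 0 := by rw [hprod, ← hz]
        exact (mul_eq_zero.1 this).resolve_left hX0.ne'
      obtain ⟨k1, k2⟩ := key Y X (by linarith) (by rw [mul_comm]; exact hprod)
      rw [hY] at k2
      have c1 : ∀ t ∈ Icc 0 T, (z3 t - -z3 (-t)) + X * (z1 t - -z1 (-t)) = s := by
        intro t ht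
        have := const_of_deriv (f := fun t => (z3 t - -z3 (-t)) + X * (z1 t - -z1 (-t))) ht.2
          (fun r hr => (k2 r ⟨ht.1.trans hr.1, hr.2⟩).congr_deriv (by ring))
        rw [← this]
        rw [oT3, ← hs]
        have hXc : X = c ^ 2 := by linarith
        rw [hXc]; ring
      have c2 := const_of_deriv
        (f := fun t => ((z2 t - z2 (-t)) + X * (z0 t - z0 (-t))) - s * t) hT.le
        (fun r hr => ((k1 r hr).sub ((hasDerivAt_id r).const_mul s)).congr_deriv (by
          rw [c1 r hr]; ring))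
      simp only [neg_zero, sub_self, mul_zero, add_zero] at c2
      rw [oT2, hzT, hzT'] at c2
      have : s * (2 * α + T) = 0 := by linarith
      rcases mul_eq_zero.1 this with h5 | h5
      · exact hsne h5
      · linarith
    · -- `ξ > 0`
      have hYpos : 0 < Y := by
        rcases hY0.eq_or_lt with h5 | h5
        · rw [← h5, mul_zero] at hprod
          linarith
        · exact h5
      set ω := Real.sqrt X with hω
      set ν := Real.sqrt Y with hν
      have hωpos : 0 < ω := Real.sqrt_pos.2 hX0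
      have hνpos : 0 < ν := Real.sqrt_pos.2 hYpos
      have hω2 : ω ^ 2 = X := Real.sq_sqrt hX0.le
      have hν2 : ν ^ 2 = Y := Real.sq_sqrt hYpos.le
      have relX := rel X Y ω hXY hprod hωpos hω2
      have relY := rel Y X ν (by linarith) (by rw [mul_comm]; exact hprod) hνpos hν2
      -- the even part
      set K := (1 - ξ) / ξ with hK
      have hKξ : ξ * K = 1 - ξ := by rw [hK]; field_simp
      have p0 : ∀ t, HasDerivAt (fun t => (z0 t + z0 (-t)) / 2) ((z1 t + -z1 (-t)) / 2) t :=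
        fun t => ((h0 t).add (r0 t)).div_const 2
      have p1 : ∀ t, HasDerivAt (fun t => (z1 t + -z1 (-t)) / 2) ((z2 t + z2 (-t)) / 2) t :=
        fun t => ((h1 t).add (r1 t)).div_const 2
      have p2 : ∀ t, HasDerivAt (fun t => (z2 t + z2 (-t)) / 2) ((z3 t + -z3 (-t)) / 2) t :=
        fun t => ((h2 t).add (r2 t)).div_const 2
      have p3 : ∀ t ∈ Icc 0 T, HasDerivAt (fun t => (z3 t + -z3 (-t)) / 2)
          (1 - ξ - c ^ 2 * ((z2 t + z2 (-t)) / 2) - ξ * ((z0 t + z0 (-t)) / 2)) t := fun t ht =>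
        (((in3 t ht).add (in3' t ht)).div_const 2).congr_deriv (by ring)
      set σ := (z1 T + -z1 (-T)) / 2 with hσ
      have eT2 : (z2 T + z2 (-T)) / 2 = 1 - 2 * α * σ := by rw [R2, L2, hσ]; ring
      have eT3 : (z3 T + -z3 (-T)) / 2 = (1 - c ^ 2) * σ - 2 * α := by rw [R3, L3, hσ]; ring
      have even : ∀ x y w : ℝ, x + y = c ^ 2 → x * y = ξ → 0 < w → w ^ 2 = x →
          (∀ t ∈ Icc 0 T, (z2 t + z2 (-t)) / 2 + y * ((z0 t + z0 (-t)) / 2 - K) =
            (z2 0 + y * (z0 0 - K)) * Real.cos (w * t)) ∧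
          (z2 0 + y * (z0 0 - K)) * Real.cos (w * T) = 1 - 2 * α * σ - y * (1 + K) ∧
          (z2 0 + y * (z0 0 - K)) * w * Real.sin (w * T) = -((1 - x) * σ - 2 * α) := by
        intro x y w hxy hp hw hwx
        have d1 : ∀ t ∈ Icc 0 T, HasDerivAt
            (fun t => (z2 t + z2 (-t)) / 2 + y * ((z0 t + z0 (-t)) / 2 - K))
            ((z3 t + -z3 (-t)) / 2 + y * ((z1 t + -z1 (-t)) / 2)) t := fun t ht =>
          (p2 t).add (((p0 t).sub_const K).const_mul y)
        have d2 : ∀ t ∈ Icc 0 T, HasDerivAt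
            (fun t => (z3 t + -z3 (-t)) / 2 + y * ((z1 t + -z1 (-t)) / 2))
            (-(w ^ 2) * ((z2 t + z2 (-t)) / 2 + y * ((z0 t + z0 (-t)) / 2 - K))) t := by
          intro t ht
          refine ((p3 t ht).add ((p1 t).const_mul y)).congr_deriv ?_
          rw [hwx]
          linear_combination ((z2 t + z2 (-t)) / 2) * hxy + ((z0 t + z0 (-t)) / 2 - K) * hp - hKξ
        have main := harmonic hw.ne' d1 d2
        simp only [neg_zero] at main
        have e1 : (z2 0 + z2 0) / 2 + y * ((z0 0 + z0 0) / 2 - K) = z2 0 + y * (z0 0 - K) := by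
          ring
        have e2 : (z3 0 + -z3 0) / 2 + y * ((z1 0 + -z1 0) / 2) = 0 := by ring
        rw [e1, e2] at main
        refine ⟨fun t ht => by rw [(main t ht).1]; ring, ?_, ?_⟩
        · have := (main T hTmem).1
          rw [eT2, hzT, hzT'] at this
          linear_combination -this
        · have := (main T hTmem).2
          rw [eT3, ← hσ] at this
          linear_combination this - σ * hxy
      obtain ⟨EX, EX1, EX2⟩ := even X Y ω hXY hprod hωpos hω2
      obtain ⟨EY, EY1, EY2⟩ := even Y X ν (by linarith) (by rw [mul_comm]; exact hprod) hνpos hν2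
      set A := z2 0 + Y * (z0 0 - K) with hA
      set B := z2 0 + X * (z0 0 - K) with hB
      have hYK : X * (Y * (1 + K)) = 1 := by
        have : X * (Y * (1 + K)) = ξ + ξ * K := by rw [← hprod]; ring
        rw [this, hKξ]; ring
      have hXK : Y * (X * (1 + K)) = 1 := by
        have : Y * (X * (1 + K)) = ξ + ξ * K := by rw [← hprod]; ring
        rw [this, hKξ]; ring
      have hr : 0 < 1 - ξ := by linarith
      have hnX : (1 - X) ^ 2 + 4 * α ^ 2 * X = 1 - ξ := by
        rw [hαc, ← hXY, ← hprod]; ring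
      have hnY : (1 - Y) ^ 2 + 4 * α ^ 2 * Y = 1 - ξ := by
        rw [hαc, ← hXY, ← hprod]; ring
      have hσ0 : σ = 0 := by
        have : σ * (1 - ξ) = 0 := by
          rw [← hnX]
          linear_combination (-A * ω) * relX + (1 - X) * EX2 + (2 * α * X) * EX1
            + (2 * α * A * Real.cos (ω * T)) * hω2 - 2 * α * hYK
        exact (mul_eq_zero.1 this).resolve_right hr.ne'
      rw [hσ0] at EX1 EX2 EY1 EY2
      simp only [mul_zero, sub_zero, zero_sub, neg_neg] at EX1 EX2 EY1 EY2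
      -- normalised amplitudes
      have cX : X * A * Real.cos (ω * T) = -(1 - X) := by linear_combination X * EX1 - hYK
      have sX : X * A * Real.sin (ω * T) = 2 * α * ω := by
        linear_combination ω * EX2 - (A * Real.sin (ω * T)) * hω2
      have cY : Y * B * Real.cos (ν * T) = -(1 - Y) := by linear_combination Y * EY1 - hXK
      have sY : Y * B * Real.sin (ν * T) = 2 * α * ν := by
        linear_combination ν * EY2 - (B * Real.sin (ν * T)) * hν2
      have nA : (X * A) ^ 2 = 1 - ξ := by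
        have h5 := Real.sin_sq_add_cos_sq (ω * T)
        have : (X * A) ^ 2 = (X * A * Real.sin (ω * T)) ^ 2 + (X * A * Real.cos (ω * T)) ^ 2 := by
          linear_combination -(X * A) ^ 2 * h5
        rw [this, cX, sX, ← hnX, ← hω2]; ring
      have nB : (Y * B) ^ 2 = 1 - ξ := by
        have h5 := Real.sin_sq_add_cos_sq (ν * T)
        have : (Y * B) ^ 2 = (Y * B * Real.sin (ν * T)) ^ 2 + (Y * B * Real.cos (ν * T)) ^ 2 := by
          linear_combination -(Y * B) ^ 2 * h5
        rw [this, cY, sY, ← hnY, ← hν2]; ring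
      set r := Real.sqrt (1 - ξ) with hrdef
      have hrpos : 0 < r := Real.sqrt_pos.2 hr
      have hr2 : r ^ 2 = 1 - ξ := Real.sq_sqrt hr.le
      have hr1 : r < 1 := by
        rw [hrdef, Real.sqrt_lt' one_pos]; linarith
      have ineq : ∀ t, 0 ≤ t → t < T →
          X * (Y * B) * Real.cos (ν * t) - Y * (X * A) * Real.cos (ω * t) < -(X - Y) := by
        intro t ht0 htT
        have e1 := EX t ⟨ht0, htT.le⟩
        have e2 := EY t ⟨ht0, htT.le⟩
        have e3 : z0 t < -1 := (hneg t).2 ⟨by linarith, htT⟩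
        have e4 : z0 (-t) < -1 := (hneg (-t)).2 ⟨by linarith, by linarith⟩
        have e5 : X * (Y * B) * Real.cos (ν * t) - Y * (X * A) * Real.cos (ω * t)
            = (X - Y) * (ξ * ((z0 t + z0 (-t)) / 2) - (1 - ξ)) := by
          linear_combination (X * Y) * e1 - (X * Y) * e2
            + (X - Y) * ((z0 t + z0 (-t)) / 2 - K) * hprod - (X - Y) * hKξ
        rw [e5]
        have e6 : ξ * ((z0 t + z0 (-t)) / 2) < ξ * (-1) := by
          apply mul_lt_mul_of_pos_left _ hpos
          linarith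
        have e7 := mul_lt_mul_of_pos_left e6 (sub_pos.2 hlt)
        linarith
      have i0 := ineq 0 le_rfl hT
      simp only [mul_zero, Real.cos_zero, mul_one] at i0
      have hAr : X * A = r ∨ X * A = -r := sq_eq_sq_iff_eq_or_eq_neg.1 (by rw [nA, hr2])
      have hBr : Y * B = r ∨ Y * B = -r := sq_eq_sq_iff_eq_or_eq_neg.1 (by rw [nB, hr2])
      have hd : 0 < X - Y := sub_pos.2 hlt
      have hdr : 0 < (X - Y) * r := mul_pos hd hrpos
      have hdr1 : (X - Y) * r < X - Y := mul_lt_of_lt_one_right hd hr1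
      have hYr : 0 < Y * r := mul_pos hYpos hrpos
      rcases hBr with hB1 | hB1
      · rcases hAr with hA1 | hA1
        · rw [hA1, hB1] at i0; linarith
        · rw [hA1, hB1] at i0; linarith
      · rcases hAr with hA1 | hA1
        · -- the remaining case
          have hsin : Real.sin (ν * T) < 0 := by
            rw [hB1] at sY
            by_contra hcon
            push Not at hcon
            have : 0 < 2 * α * ν := by positivity
            have h9 := mul_nonneg hrpos.le hcon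
            linarith
          have hpi : Real.pi < ν * T := by
            by_contra hcon
            push Not at hcon
            exact absurd (Real.sin_nonneg_of_nonneg_of_le_pi (by positivity) hcon) (not_le.2 hsin)
          have i1 := ineq (Real.pi / ν) (by positivity) (by
            rw [div_lt_iff₀ hνpos]; linarith)
          have hcosν : Real.cos (ν * (Real.pi / ν)) = -1 := by
            rw [mul_div_cancel₀ _ hνpos.ne', Real.cos_pi]
          rw [hcosν, hA1, hB1] at i1
          have h5 := Real.cos_le_one (ω * (Real.pi / ν))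
          have h9 := mul_nonneg hYr.le (sub_nonneg.2 h5)
          linarith
        · rw [hA1, hB1] at i0; linarith
  -- the odd part vanishes
  have hodd_in : ∀ t ∈ Icc 0 T, z0 t - z0 (-t) = 0 := by
    intro t ht
    obtain ⟨k1, k2⟩ := key X Y hXY hprod
    obtain ⟨l1, l2⟩ := key Y X (by linarith) (by rw [mul_comm]; exact hprod)
    have e1 := zero_data hX0.le k1 k2 (by
      rw [oT2, hs0, hzT, hzT']; ring) (by
      rw [oT3, ← hs, hs0]; ring) t ht
    have e2 := zero_data hY0 l1 l2 (by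
      rw [oT2, hs0, hzT, hzT']; ring) (by
      rw [oT3, ← hs, hs0]; ring) t ht
    have e3 : (X - Y) * (z0 t - z0 (-t)) = 0 := by
      linear_combination e2 - e1
    exact (mul_eq_zero.1 e3).resolve_left (sub_pos.2 hlt).ne'
  have hodd_out : ∀ t, T ≤ t → z0 t - z0 (-t) = 0 := by
    intro t ht
    have hanti : AntitoneOn (fun t => (z0 t - z0 (-t)) * (z0 t - z0 (-t))
        + (z1 t - -z1 (-t)) * (z1 t - -z1 (-t))) (Ici T) := by
      have hder : ∀ t, HasDerivAt (fun t => (z0 t - z0 (-t)) * (z0 t - z0 (-t))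
          + (z1 t - -z1 (-t)) * (z1 t - -z1 (-t)))
          (2 * (z0 t - z0 (-t)) * (z1 t - -z1 (-t))
            + 2 * (z1 t - -z1 (-t)) * (z2 t - z2 (-t))) t := fun t =>
        (((o0 t).mul (o0 t)).add ((o1 t).mul (o1 t))).congr_deriv (by ring)
      refine antitoneOn_of_deriv_nonpos (convex_Ici T)
        (fun t _ => (hder t).continuousAt.continuousWithinAt)
        (fun t _ => (hder t).differentiableAt.differentiableWithinAt) (fun t ht' => ?_)
      rw [interior_Ici] at ht'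
      rw [(hder t).deriv, (right t (le_of_lt ht')).1, (left t (le_of_lt ht')).1]
      have h9 := mul_nonneg hα.le (mul_self_nonneg (z1 t - -z1 (-t)))
      linarith
    have h5 := hanti (mem_Ici.2 le_rfl) (mem_Ici.2 ht) ht
    beta_reduce at h5
    rw [← hs, hs0, hzT, hzT'] at h5
    have h6 := mul_self_nonneg (z1 t - -z1 (-t))
    have h7 : (z0 t - z0 (-t)) * (z0 t - z0 (-t)) ≤ 0 := by linarith
    exact mul_self_eq_zero.1 (le_antisymm h7 (mul_self_nonneg _))
  have hpos : ∀ t, 0 ≤ t → z0 t = z0 (-t) := by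
    intro t ht
    rcases le_total t T with h5 | h5
    · exact sub_eq_zero.1 (hodd_in t ⟨ht, h5⟩)
    · exact sub_eq_zero.1 (hodd_out t h5)
  intro t
  rcases le_total 0 t with h5 | h5
  · exact hpos t h5
  · have := hpos (-t) (by linarith)
    rw [neg_neg] at this
    exact this.symm

/-- Every one-troughed wave is even about the centre of its trough, for all `c² ∈ (0,2)` and
`ξ ∈ [0, c⁴/4)`. -/
theorem result : ∀ c ξ : ℝ, 0 < c → c ^ 2 < 2 → 0 ≤ ξ → ξ < c ^ 4 / 4 →
    ∀ z : ℝ → ℝ, IsWave c ξ z → OneTroughed z →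
      ∃ τ : ℝ, ∀ t, z (τ + t) = z (τ - t) := by
  intro c ξ hc hc2 hξ0 hξ z ⟨hz, heq, a0, b0, a1, b1⟩ ⟨t₀, t₁, hlt, hneg⟩
  set τ := (t₀ + t₁) / 2 with hτ
  have hd : ∀ k : ℕ, (k : ℕ∞) < 4 → ∀ t,
      HasDerivAt (iteratedDeriv k z) (iteratedDeriv (k + 1) z t) t := by
    intro k hk t
    have h1 : Differentiable ℝ (iteratedDeriv k z) :=
      hz.differentiable_iteratedDeriv k (by exact_mod_cast hk)
    rw [iteratedDeriv_succ]
    exact (h1 t).hasDerivAt
  have sh : ∀ k : ℕ, (k : ℕ∞) < 4 → ∀ t,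
      HasDerivAt (fun t => iteratedDeriv k z (τ + t)) (iteratedDeriv (k + 1) z (τ + t)) t :=
    fun k hk t => (hd k hk (τ + t)).comp_const_add τ t
  have main := core (c := c) (ξ := ξ) (T := (t₁ - t₀) / 2)
    (z0 := fun t => iteratedDeriv 0 z (τ + t)) (z1 := fun t => iteratedDeriv 1 z (τ + t))
    (z2 := fun t => iteratedDeriv 2 z (τ + t)) (z3 := fun t => iteratedDeriv 3 z (τ + t))
    hc hc2 hξ0 hξ (by linarith) (sh 0 (by norm_num)) (sh 1 (by norm_num)) (sh 2 (by norm_num))
    (fun t => (sh 3 (by norm_num) t).congr_deriv (by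
      have := heq (τ + t)
      simp only [iteratedDeriv_zero]
      linarith))
    (by simp only [iteratedDeriv_zero]
        exact a0.comp (tendsto_atTop_add_const_left _ _ tendsto_id))
    (by simp only [iteratedDeriv_one]
        exact a1.comp (tendsto_atTop_add_const_left _ _ tendsto_id))
    (by simp only [iteratedDeriv_zero]
        exact b0.comp (tendsto_atBot_add_const_left _ _ tendsto_id))
    (by simp only [iteratedDeriv_one]
        exact b1.comp (tendsto_atBot_add_const_left _ _ tendsto_id))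
    (fun t => by
      simp only [iteratedDeriv_zero]
      rw [hneg]
      constructor
      · rintro ⟨h1, h2⟩; constructor <;> linarith
      · rintro ⟨h1, h2⟩; constructor <;> linarith)
  refine ⟨τ, fun t => ?_⟩
  have := main t
  simp only [iteratedDeriv_zero] at this
  rw [this, sub_eq_add_neg]

end Pool.Agent.Results.MP_55ecfc_an.OneTroughedEven
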